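import Pool.Agent.Lib.MP_57deef_al.Concrete

set_option autoImplicit false

namespace Pool.Agent.Lib.MP_57deef_al.Old.NotIntegrable

/-- Thompson's group `F` is not integrable: no group has derived subgroup isomorphic to `F`. -/
theorem result (H : Type*) [Group H] :
    IsEmpty (commutator H ≃* Pool.Agent.Lib.MP_57deef_al.thompsonF) :=
  ⟨Pool.Agent.Lib.MP_57deef_al.main⟩

end Pool.Agent.Lib.MP_57deef_al.Old.NotIntegrable
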